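import Pool.Agent.Helper18.SU.Goals2

set_option autoImplicit false

namespace Pool.Agent.Helper39.SU

open Pool.Agent.Helper18.SU Finset

theorem E2H (h1 : OPV_stmt) (h2 : OPA_stmt) (h3 : E2N_stmt) (h4 : GZ_stmt) (h5 : SIZ_stmt)
    (h6 : DEG_stmt) (h7 : DSC_stmt) : E2H_stmt := by
  intro W V _ _ _ _ A hT hVW r u par dep hroot sgn LO LI hBrm s G R hsum hG hRa hRb hR
  obtain ⟨siz1, siz2, siz3⟩ := h5 V A hT
  obtain ⟨deg1, deg2, deg3, deg4, deg5, deg6, deg7, deg8⟩ := h6 V A hT
  set a := LO.card with ha
  set b := LI.card with hb
  set X := low A true (a + G) with hX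
  set B := low A false (b + G) with hB
  set M := mid A (a + G) (b + G) with hM
  have hC : C0 = 10000000 := rfl
  have hXc : X.card + 1 ≤ 2 * (a + G) := siz1 true (a + G) (by omega)
  have hBc : B.card + 1 ≤ 2 * (b + G) := siz1 false (b + G) (by omega)
  have hcov : Fintype.card V ≤ X.card + B.card + M.card := siz2 (a + G) (b + G)
  have hXd : ∀ x ∈ X, (nb A true univ x).card < a + G := by
    intro x hx
    rw [hX] at hx
    simp only [low, mem_filter, mem_univ, true_and] at hx
    exact hx
  have hBd : ∀ x ∈ B, (nb A false univ x).card < b + G := by
    intro x hx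
    rw [hB] at hx
    simp only [low, mem_filter, mem_univ, true_and] at hx
    exact hx
  have hXin : ∀ x ∈ X, a + b + s ≤ (nb A false univ x).card := by
    intro x hx
    have e1 := hXd x hx
    have e2 := siz3 x
    omega
  have hBout : ∀ x ∈ B, a + b + s ≤ (nb A true univ x).card := by
    intro x hx
    have e1 := hBd x hx
    have e2 := siz3 x
    omega
  have hdisj : Disjoint X B := by
    rw [disjoint_left]
    intro x hx hx'
    have e1 := hXd x hx
    have e2 := hBout x hx'
    omega
  have hnbX : ∀ x, (nb A true X x).card ≤ (nb A true univ x).card := fun x =>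
    card_le_card (deg6 true X univ x (subset_univ _))
  by_cases hF : Full (V := V) A r par sgn
  · exact Or.inl hF
  right
  -- (1)
  have hpath : ∀ k : ℕ, par^[k] u ≠ r → sgn (par^[k] u) = false := by
    intro k hk
    by_contra hs
    have hs' : sgn (par^[k] u) = true := by
      cases h : sgn (par^[k] u) with
      | true => rfl
      | false => exact absurd h hs
    apply hF
    classical
    set B' := B.filter (fun x => 3 * s + C0 ≤ (nb A true X x).card) with hB'
    have hBB : B' ⊆ B := filter_subset _ _
    refine h3 W V A hT r u par dep hroot sgn LO LI hBrm s hsum ⟨k, hk, hs'⟩ B' X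
      (disjoint_of_subset_left hBB hdisj.symm) ?_ ?_ (fun x hx => hBout x (hBB hx)) hXin
    · -- the count
      by_contra hlt
      push Not at hlt
      have hsum3 := deg3 true X B
      have hbnot : (!true) = false := rfl
      rw [hbnot] at hsum3
      -- lower bound
      have hlow : (B.card - B'.card) * (X.card - (3 * s + C0)) ≤
          ∑ y ∈ B, (nb A false X y).card := by
        have hsd : (B \ B').card = B.card - B'.card := by
          rw [card_sdiff_of_subset hBB]
        calc (B.card - B'.card) * (X.card - (3 * s + C0))
            = ∑ y ∈ B \ B', (X.card - (3 * s + C0)) := by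
              rw [sum_const, hsd, smul_eq_mul]
          _ ≤ ∑ y ∈ B \ B', (nb A false X y).card := by
              apply sum_le_sum
              intro y hy
              rw [mem_sdiff] at hy
              have hyX : y ∉ X := fun h => (disjoint_left.1 hdisj) h hy.1
              have e1 := deg1 X y hyX
              have e2 : ¬ (3 * s + C0 ≤ (nb A true X y).card) := by
                intro h
                exact hy.2 (mem_filter.2 ⟨hy.1, h⟩)
              omega
          _ ≤ ∑ y ∈ B, (nb A false X y).card :=
              sum_le_sum_of_subset sdiff_subset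
      -- upper bound
      have hup : ∑ x ∈ X, (nb A true B x).card + ∑ x ∈ X, (nb A true X x).card
          ≤ X.card * (a + G - 1) := by
        rw [← sum_add_distrib]
        calc ∑ x ∈ X, ((nb A true B x).card + (nb A true X x).card)
            ≤ ∑ x ∈ X, (a + G - 1) := by
              apply sum_le_sum
              intro x hx
              have e1 := hXd x hx
              have hd : Disjoint (nb A true B x) (nb A true X x) := by
                rw [disjoint_left]
                intro y hy hy'
                unfold nb at hy hy'
                rw [mem_filter] at hy hy'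
                exact (disjoint_left.1 hdisj) hy'.1 hy.1
              have hsub : nb A true B x ∪ nb A true X x ⊆ nb A true univ x :=
                union_subset (deg6 true B univ x (subset_univ _))
                  (deg6 true X univ x (subset_univ _))
              have e2 := card_le_card hsub
              rw [card_union_of_disjoint hd] at e2
              omega
          _ = X.card * (a + G - 1) := by rw [sum_const, smul_eq_mul]
      have h4X := deg4 true X
      -- numbers
      set x := X.card with hxdef
      set S1 := ∑ x ∈ X, (nb A true B x).card with hS1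
      set S2 := ∑ x ∈ X, (nb A true X x).card with hS2
      have hxl : 2 * (3 * s + C0) ≤ x := by omega
      have hxlow : 2 * a + 2 * G ≤ x + 1 + (4 * G + R) := by omega
      have hbl : b + B'.card ≤ B.card := by omega
      have hb4 : 4 * G + R < b := by omega
      have hxpos : 0 < x := by omega
      -- 2 S1 ≤ x (4 G + R)
      obtain ⟨q, hq⟩ : ∃ q, a + G - 1 = q := ⟨_, rfl⟩
      have hq2 : 2 * q ≤ x + (4 * G + R) := by omega
      rw [hq] at hup
      have hS1up : 2 * S1 + x * x ≤ x * (x + (4 * G + R)) + x := by
        have e1 : x ^ 2 = x * x := sq x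
        have e2 : x * (2 * q) ≤ x * (x + (4 * G + R)) := Nat.mul_le_mul le_rfl hq2
        have e3 : x * (2 * q) = 2 * (x * q) := by ring
        omega
      have hS1lo : b * (x - (3 * s + C0)) ≤ S1 := by
        rw [hsum3]
        refine le_trans ?_ hlow
        exact Nat.mul_le_mul (by omega) le_rfl
      have e5 : x ≤ 2 * (x - (3 * s + C0)) := by omega
      have e6 : b * x ≤ 2 * (b * (x - (3 * s + C0))) := by
        calc b * x ≤ b * (2 * (x - (3 * s + C0))) := Nat.mul_le_mul le_rfl e5
          _ = 2 * (b * (x - (3 * s + C0))) := by ring
      have e7 : (4 * G + R + 2) * x ≤ b * x := Nat.mul_le_mul (by omega) le_rfl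
      have e8 : x * (x + (4 * G + R)) = x * x + (4 * G + R) * x := by ring
      have e9 : (4 * G + R + 2) * x = (4 * G + R) * x + 2 * x := by ring
      omega
    · intro x hx
      exact (mem_filter.1 hx).2
  have hMd : ∀ z ∈ M, a + G ≤ (nb A true univ z).card ∧ b + G ≤ (nb A false univ z).card := by
    intro z hz
    rw [hM] at hz
    simp only [mid, mem_filter, mem_univ, true_and] at hz
    exact hz
  obtain ⟨hOPV1, hOPV2⟩ := h1 W V A hT r u par dep hroot sgn LO LI hBrm s hsum
  obtain ⟨-, -, -, -, hdscr, -, -⟩ := h7 W r par dep hroot
  refine ⟨hpath, ?_, ?_⟩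
  · intro z hz
    obtain ⟨hz1, hz2⟩ := hMd z hz
    have hur : u ≠ r := by
      intro h
      exact hF (hOPV1 h z (by omega) (by omega))
    refine ⟨hur, ?_⟩
    by_contra hge
    push Not at hge
    apply hF
    -- the vertex below the root
    classical
    have hex : ∃ k : ℕ, par^[k] u = r := by
      have := hdscr u
      simpa [dsc] using this
    have hk0 : Nat.find hex ≠ 0 := by
      intro h0
      have := Nat.find_spec hex
      rw [h0] at this
      exact hur this
    obtain ⟨k, hk⟩ : ∃ k, Nat.find hex = k + 1 := Nat.exists_eq_succ_of_ne_zero hk0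
    have hkr : par^[k + 1] u = r := by
      rw [← hk]; exact Nat.find_spec hex
    have hkne : par^[k] u ≠ r := by
      apply Nat.find_min hex
      omega
    refine hOPV2 (par^[k] u) hkne ?_ (hpath k hkne) ?_ z X (by omega) hge ?_
    · rw [← hkr, Function.iterate_succ_apply']
    · simp only [dsc, mem_filter, mem_univ, true_and]
      exact ⟨k, rfl⟩
    · intro y hy
      exact hXin y hy
  · intro y hy
    by_contra hge
    push Not at hge
    apply hF
    have hLOchd : LO ⊆ chd r par sgn r true := by
      intro c hc
      have := hBrm.1 c hc
      simp only [chd, mem_filter, mem_univ, true_and]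
      exact this
    have hdv : a ≤ (chd r par sgn r true).card := card_le_card hLOchd
    have hyd := hXd y hy
    have hnby := hnbX y
    obtain ⟨Z, hZ, hZc, hZp⟩ := h4 V A hT X y hy (a + G - 1) (4 * G + R) (4 * s + C0)
      (fun x hx => by
        have e1 := hXd x hx
        have e2 := hnbX x
        omega)
      (by omega) (by omega) (by omega) (by omega) (by omega)
    have hdeg2 := deg2 X y hy
    exact h2 W V A hT r u par dep hroot sgn LO LI hBrm s hsum X y hy hge (by omega)
      (Or.inr hXin) Z hZ (by omega) hZp

end Pool.Agent.Helper39.SU
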